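import Mathlib

/-!
# An explicit closed set for MP_5e6479_an

The set is the closed left half-plane together with the lines `Im z = (k + 1/2) π`.  An entire
function which is bounded on it and bounded away from `0` off it is constant.
-/

set_option autoImplicit false

namespace Pool.Agent.Lib_MP_5e6479_ins

open Complex Metric Set Filter InnerProductSpace Real Topology Asymptotics

/-- A function which agrees with a polynomial and takes the same value at all the points
`2πi n` is constant. -/
theorem poly_const_of_periodic (f : ℂ → ℂ) (p : Polynomial ℂ) (hp : ∀ z, f z = p.eval z)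
    (hper : ∀ n : ℕ, f ((n : ℂ) * (2 * π * I)) = f 0) (z : ℂ) : f z = f 0 := by
  have hinf : (Set.range fun n : ℕ => (n : ℂ) * (2 * π * I)).Infinite := by
    apply Set.infinite_range_of_injective
    intro m n hmn
    have h2 : (2 * π * I : ℂ) ≠ 0 := Complex.two_pi_I_ne_zero
    have := mul_right_cancel₀ h2 hmn
    exact_mod_cast this
  have hq : p - Polynomial.C (f 0) = 0 := by
    apply Polynomial.eq_zero_of_infinite_isRoot
    apply hinf.mono
    rintro _ ⟨n, rfl⟩
    show (p - Polynomial.C (f 0)).IsRoot _
    rw [Polynomial.IsRoot.def, Polynomial.eval_sub, Polynomial.eval_C, ← hp, hper, sub_self]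
  have hp2 : p = Polynomial.C (f 0) := sub_eq_zero.mp hq
  rw [hp z, hp2, Polynomial.eval_C]

theorem exp_not_poly : ¬ ∃ p : Polynomial ℂ, ∀ z, Complex.exp z = p.eval z := by
  rintro ⟨p, hp⟩
  have h := poly_const_of_periodic Complex.exp p hp (fun n => by
    rw [Complex.exp_nat_mul_two_pi_mul_I, Complex.exp_zero]) (Real.log 2 : ℂ)
  rw [Complex.exp_zero, ← Complex.ofReal_exp, Real.exp_log (by norm_num)] at h
  norm_num at h

theorem expexp_not_poly :
    ¬ ∃ p : Polynomial ℂ, ∀ z, Complex.exp (Complex.exp z) = p.eval z := by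
  rintro ⟨p, hp⟩
  have h := poly_const_of_periodic (fun z => Complex.exp (Complex.exp z)) p hp (fun n => by
    simp only [Complex.exp_nat_mul_two_pi_mul_I, Complex.exp_zero]) (Real.log 2 : ℂ)
  simp only [Complex.exp_zero] at h
  rw [← Complex.ofReal_exp, Real.exp_log (by norm_num), ← Complex.ofReal_exp,
    ← Complex.ofReal_one, ← Complex.ofReal_exp] at h
  have h2 : Real.exp 2 = Real.exp 1 := by exact_mod_cast h
  have := Real.exp_injective h2
  norm_num at this

/-- Harnack's inequality for a nonnegative harmonic function on a closed disc. -/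
theorem harnack {u : ℂ → ℝ} {c w : ℂ} {R : ℝ} (hu : HarmonicOnNhd u (closedBall c R))
    (hpos : ∀ z ∈ sphere c R, 0 ≤ u z) (hw : w ∈ ball c R) :
    (R - ‖w - c‖) / (R + ‖w - c‖) * u c ≤ u w := by
  have hR : 0 < R := pos_of_mem_ball hw
  have hcont : ContinuousOn u (closedBall c R) := hu.continuousOn
  have hcs : ContinuousOn u (sphere c |R|) := by
    rw [abs_of_pos hR]
    exact hcont.mono sphere_subset_closedBall
  have h1 : Real.circleAverage u c R = u c := by
    apply InnerProductSpace.HarmonicOnNhd.circleAverage_eq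
    rwa [abs_of_pos hR]
  have h2 := HarmonicOnNhd.circleAverage_re_herglotzRieszKernel_smul hu hw
  rw [← h2, ← h1, ← smul_eq_mul, ← Real.circleAverage_smul]
  apply Real.circleAverage_mono
  · exact (hcs.const_smul _).circleIntegrable'
  · apply ContinuousOn.circleIntegrable'
    apply ContinuousOn.smul _ hcs
    exact Complex.continuous_re.comp_continuousOn (continuousOn_herglotzRieszKernel_sphere hw)
  · intro z hz
    rw [abs_of_pos hR] at hz
    simp only [Pi.smul_apply, Pi.smul_apply', smul_eq_mul, Function.comp_apply]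
    apply mul_le_mul_of_nonneg_right _ (hpos z hz)
    rw [herglotzRieszKernel_def]
    exact le_re_herglotzRieszKernel hz hw

/-- An entire function `h` with `‖h‖ ≤ M` at the points with `Re z ≤ 0` or `cos (Im z) = 0` and
`δ ≤ ‖h‖` at all other points is bounded by `M`. -/
theorem bound_all {h : ℂ → ℂ} (hd : Differentiable ℂ h) {M δ : ℝ}
    (hM : ∀ z ∈ {z : ℂ | z.re ≤ 0 ∨ Real.cos z.im = 0}, ‖h z‖ ≤ M) (hδ : 0 < δ)
    (hlow : ∀ z ∉ {z : ℂ | z.re ≤ 0 ∨ Real.cos z.im = 0}, δ ≤ ‖h z‖) :
    ∀ z : ℂ, ‖h z‖ ≤ M := by
  -- lower bound on the closed right half-plane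
  have hlow' : ∀ z : ℂ, 0 ≤ z.re → δ ≤ ‖h z‖ := by
    intro z hz
    -- approach `z` by `z + t + t i`, `t → 0+`
    have hlim : Tendsto (fun t : ℝ => ‖h (z + (t : ℂ) + (t : ℂ) * I)‖) (𝓝[>] 0) (𝓝 ‖h z‖) := by
      have : Continuous (fun t : ℝ => ‖h (z + (t : ℂ) + (t : ℂ) * I)‖) := by
        have := hd.continuous
        fun_prop
      have h0 := this.tendsto 0
      simp only [Complex.ofReal_zero, add_zero, zero_mul] at h0
      exact h0.mono_left nhdsWithin_le_nhds
    apply ge_of_tendsto hlim
    have hne : ∀ᶠ t : ℝ in 𝓝[>] 0, Real.cos (z.im + t) ≠ 0 := by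
      by_cases hc : Real.cos z.im = 0
      · have hs : Real.sin z.im ≠ 0 := by
          intro hs
          have := Real.sin_sq_add_cos_sq z.im
          rw [hs, hc] at this
          norm_num at this
        have h1 : ∀ᶠ t : ℝ in 𝓝[>] 0, t < π := by
          apply eventually_nhdsWithin_of_eventually_nhds
          exact (isOpen_Iio.mem_nhds (show (0:ℝ) ∈ Iio π from Real.pi_pos))
        filter_upwards [h1, self_mem_nhdsWithin] with t ht1 ht2
        rw [Real.cos_add, hc]
        simp only [zero_mul, zero_sub, ne_eq, neg_eq_zero, mul_eq_zero, hs, false_or]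
        exact (Real.sin_pos_of_pos_of_lt_pi ht2 ht1).ne'
      · apply eventually_nhdsWithin_of_eventually_nhds
        have : Continuous (fun t : ℝ => Real.cos (z.im + t)) := by fun_prop
        apply this.continuousAt.eventually_ne
        simpa using hc
    filter_upwards [hne, self_mem_nhdsWithin] with t ht1 ht2
    apply hlow
    simp only [Set.mem_ofPred_eq, not_or, not_le]
    constructor
    · have : (0:ℝ) < t := ht2
      simp
      linarith
    · simpa using ht1
  have hne0 : ∀ z : ℂ, 0 ≤ z.re → h z ≠ 0 := by
    intro z hz h0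
    have := hlow' z hz
    rw [h0, norm_zero] at this
    linarith
  intro z
  have hbound : ‖h z‖ ≤ M := by
    -- the strip containing `z`
    obtain ⟨k, hk1, hk2⟩ : ∃ k : ℤ, (k : ℝ) * π - π / 2 ≤ z.im ∧ z.im ≤ (k : ℝ) * π + π / 2 := by
      refine ⟨⌊(z.im + π / 2) / π⌋, ?_, ?_⟩
      · have := Int.floor_le ((z.im + π / 2) / π)
        rw [le_div_iff₀ Real.pi_pos] at this
        linarith
      · have := (Int.lt_floor_add_one ((z.im + π / 2) / π)).le
        rw [div_le_iff₀ Real.pi_pos] at this
        linarith
    set a : ℝ := (k : ℝ) * π - π / 2 with ha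
    set b : ℝ := (k : ℝ) * π + π / 2 with hb
    have hcos_a : Real.cos a = 0 := by
      rw [ha, Real.cos_sub, Real.cos_pi_div_two, Real.sin_int_mul_pi]
      ring
    have hcos_b : Real.cos b = 0 := by
      rw [hb, Real.cos_add, Real.cos_pi_div_two, Real.sin_int_mul_pi]
      ring
    -- upper bound on the segment `1 + i y`, `a ≤ y ≤ b`
    obtain ⟨K, hK0, hK⟩ : ∃ K : ℝ, 0 ≤ K ∧ ∀ y : ℝ, a ≤ y → y ≤ b →
        Real.log ‖h (1 + (y : ℂ) * I)‖ - Real.log δ ≤ K := by
      have hcont : ContinuousOn (fun y : ℝ => Real.log ‖h (1 + (y : ℂ) * I)‖ - Real.log δ)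
          (Icc a b) := by
        apply ContinuousOn.sub _ continuousOn_const
        apply ContinuousOn.log
        · have := hd.continuous
          fun_prop
        · intro y _
          rw [norm_ne_zero_iff]
          apply hne0
          simp
      obtain ⟨K, hK⟩ := (isCompact_Icc.bddAbove_image hcont)
      refine ⟨max K 0, le_max_right _ _, ?_⟩
      intro y hy1 hy2
      exact (hK ⟨y, ⟨hy1, hy2⟩, rfl⟩).trans (le_max_left _ _)
    -- Harnack
    have hgrowth : ∀ w : ℂ, 1 ≤ w.re → a ≤ w.im → w.im ≤ b →
        Real.log ‖h w‖ - Real.log δ ≤ 2 * w.re * K := by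
      intro w hw1 hw2 hw3
      have hw0 : (1 + (w.im : ℂ) * I) - w = ((1 - w.re : ℝ) : ℂ) := by
        apply Complex.ext <;> simp
      have hn : ‖(1 + (w.im : ℂ) * I) - w‖ = w.re - 1 := by
        rw [hw0, Complex.norm_real, Real.norm_eq_abs, abs_of_nonpos (by linarith)]
        ring
      have hre : ∀ v ∈ closedBall w w.re, 0 ≤ v.re := by
        intro v hv
        have h1 : |(v - w).re| ≤ ‖v - w‖ := Complex.abs_re_le_norm _
        have h2 : ‖v - w‖ ≤ w.re := by simpa [dist_eq_norm] using hv
        have h3 := (abs_le.mp (h1.trans h2)).1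
        simp only [Complex.sub_re] at h3
        linarith
      have hharm : HarmonicOnNhd (fun v => Real.log ‖h v‖ - Real.log δ) (closedBall w w.re) := by
        intro v hv
        have h1 : HarmonicAt (fun v => Real.log ‖h v‖) v :=
          AnalyticAt.harmonicAt_log_norm (hd.analyticAt v) (hne0 v (hre v hv))
        exact h1.sub (harmonicAt_const _)
      have key := harnack (u := fun v => Real.log ‖h v‖ - Real.log δ) (c := w)
        (w := 1 + (w.im : ℂ) * I) (R := w.re) hharm
        (by
          intro v hv
          have h1 := hlow' v (hre v (sphere_subset_closedBall hv))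
          have h2 := Real.log_le_log hδ h1
          show 0 ≤ Real.log ‖h v‖ - Real.log δ
          linarith)
        (by
          rw [mem_ball, dist_eq_norm, hn]
          linarith)
      rw [hn] at key
      have h1 := hK w.im hw2 hw3
      have h2 : (w.re - (w.re - 1)) / (w.re + (w.re - 1)) = 1 / (2 * w.re - 1) := by
        congr 1 <;> ring
      rw [h2] at key
      have h3 : 0 < 2 * w.re - 1 := by linarith
      have h4 : Real.log ‖h w‖ - Real.log δ ≤
          (2 * w.re - 1) * (Real.log ‖h (1 + (w.im : ℂ) * I)‖ - Real.log δ) := by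
        have := mul_le_mul_of_nonneg_left key h3.le
        rw [← mul_assoc, mul_one_div_cancel h3.ne', one_mul] at this
        exact this
      calc Real.log ‖h w‖ - Real.log δ
          ≤ (2 * w.re - 1) * (Real.log ‖h (1 + (w.im : ℂ) * I)‖ - Real.log δ) := h4
        _ ≤ (2 * w.re - 1) * K := mul_le_mul_of_nonneg_left h1 h3.le
        _ ≤ 2 * w.re * K := by nlinarith
    -- Phragmen-Lindelof in the strip
    apply PhragmenLindelof.horizontal_strip (f := h) (a := a) (b := b) (C := M)
      hd.diffContOnCl _ _ _ hk1 hk2
    · refine ⟨1 / 2, ?_, 4 * K, ?_⟩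
      · have : b - a = π := by rw [ha, hb]; ring
        rw [this, div_self Real.pi_pos.ne']
        norm_num
      · apply IsBigO.of_bound (max δ M)
        have hev : ∀ᶠ w : ℂ in comap (_root_.abs ∘ re) atTop ⊓ 𝓟 (im ⁻¹' Ioo a b),
            1 ≤ |w.re| ∧ w ∈ im ⁻¹' Ioo a b := by
          apply Filter.Eventually.and
          · apply Filter.Eventually.filter_mono inf_le_left
            exact (eventually_ge_atTop (1:ℝ)).comap _
          · apply Filter.Eventually.filter_mono inf_le_right
            exact eventually_principal.mpr (fun _ hx => hx)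
        filter_upwards [hev] with w hw
        obtain ⟨hw1, hw2⟩ := hw
        rw [Real.norm_of_nonneg (Real.exp_pos _).le]
        have hexp1 : (1:ℝ) ≤ Real.exp (4 * K * Real.exp (1 / 2 * |w.re|)) := by
          apply Real.one_le_exp
          positivity
        rcases le_or_gt w.re 0 with hneg | hpos
        · calc ‖h w‖ ≤ M := hM w (Or.inl hneg)
            _ ≤ max δ M * 1 := by rw [mul_one]; exact le_max_right _ _
            _ ≤ max δ M * Real.exp (4 * K * Real.exp (1 / 2 * |w.re|)) := by
                apply mul_le_mul_of_nonneg_left hexp1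
                exact hδ.le.trans (le_max_left _ _)
        · rw [abs_of_pos hpos] at hw1 ⊢
          have h1 := hgrowth w hw1 hw2.1.le hw2.2.le
          have hpos' : 0 < ‖h w‖ := norm_pos_iff.mpr (hne0 w hpos.le)
          have h2 : ‖h w‖ ≤ δ * Real.exp (2 * w.re * K) := by
            rw [← Real.exp_log hpos']
            conv_rhs => rw [← Real.exp_log hδ]
            rw [← Real.exp_add]
            apply Real.exp_le_exp.mpr
            linarith
          have h3 : 2 * w.re * K ≤ 4 * K * Real.exp (1 / 2 * w.re) := by
            have h5 : 1 / 2 * w.re ≤ Real.exp (1 / 2 * w.re) := by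
              have := Real.add_one_le_exp (1 / 2 * w.re)
              linarith
            nlinarith
          calc ‖h w‖ ≤ δ * Real.exp (2 * w.re * K) := h2
            _ ≤ δ * Real.exp (4 * K * Real.exp (1 / 2 * w.re)) := by
                apply mul_le_mul_of_nonneg_left _ hδ.le
                exact Real.exp_le_exp.mpr h3
            _ ≤ max δ M * Real.exp (4 * K * Real.exp (1 / 2 * w.re)) := by
                apply mul_le_mul_of_nonneg_right (le_max_left _ _) (Real.exp_pos _).le
    · intro w hw
      apply hM
      right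
      rw [hw, hcos_a]
    · intro w hw
      apply hM
      right
      rw [hw, hcos_b]
  exact hbound

end Pool.Agent.Lib_MP_5e6479_ins
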